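import Mathlib

/-!
# Project BV (helper798), very famous problem MP_e27144_an (Furstenberg's ×2, ×3 conjecture)

Target: let `p ≠ q` be primes and `f` a function of bounded variation (or with an absolutely convergent
Fourier series) on the circle. Either `f` is trivial (every atomless `×p, ×q`-invariant probability measure
gives it the integral `∫ f dλ`, for a formal reason), or ONE integral decides: Furstenberg's conjecture for
`p, q` holds if and only if `∫ f dμ = ∫ f dλ` for all atomless invariant `μ`.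

Every statement below is a package, in plain Mathlib. Proof of package `XX`: file
`Pool/Agent/U<nr>/BV/XX.lean`, `theorem t_XX : Pool.Agent.U798.BV.S_XX`.
-/

set_option autoImplicit false

open MeasureTheory Filter Topology

namespace Pool.Agent.U798.BV

/-- the sawtooth function -/
noncomputable def sw (t : ℝ) : ℝ := Int.fract t - 1 / 2

/-- `e(t) = exp(2 π i t)` -/
noncomputable def e1 (t : ℝ) : ℂ := Complex.exp (2 * Real.pi * Complex.I * t)

/-- the part of the sawtooth function with frequencies prime to `p q` -/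
noncomputable def V (p q : ℕ) (t : ℝ) : ℝ :=
  sw t - sw (p * t) / p - sw (q * t) / q + sw (p * q * t) / (p * q)

/-- **REP**. A function of bounded variation on `[0, 1]` with `f 0 = f 1` is an integral of translates of the
sawtooth function against a difference of two finite measures, outside a countable set.
Hint: `f = u - v` on `[0, 1]`, `u, v` monotone on `[0, 1]` (`LocallyBoundedVariationOn.exists_monotoneOn_sub_monotoneOn`,
`BoundedVariationOn.locallyBoundedVariationOn`), extend to monotone functions on `ℝ` by clamping,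
`u (max 0 (min 1 x))`; `θ_u = (Monotone.stieltjesFunction ..).measure`, a finite measure carried by `[0, 1]`
(`StieltjesFunction.isFiniteMeasure` or the like, or restrict to `Icc 0 1`). At continuity points of the
clamped `u` (all but countably many, `Monotone.countable_not_continuousAt`), for `0 ≤ x < 1`:
`u x = u 0 + θ_u (Iic x) = u 0 + ∫ 1_{t ≤ x} dθ_u(t)`, and for `t ∈ [0, 1]`, `x ∈ [0, 1)`:
`1_{t ≤ x} = x - t + 1 / 2 - sw (x - t)`. The terms `x * θ_u(ℝ)` and `x * θ_v(ℝ)` cancel, because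
`θ_u(ℝ) = u 1 - u 0 = v 1 - v 0 = θ_v(ℝ)` by `f 0 = f 1`. -/
def S_REP : Prop := ∀ f : ℝ → ℝ, BoundedVariationOn f (Set.Icc 0 1) → f 0 = f 1 →
  ∃ (θ₁ θ₂ : Measure ℝ) (c : ℝ), IsFiniteMeasure θ₁ ∧ IsFiniteMeasure θ₂ ∧
    {x : ℝ | 0 ≤ x ∧ x < 1 ∧ f x ≠ c - (∫ t, sw (x - t) ∂θ₁) + ∫ t, sw (x - t) ∂θ₂}.Countable

/-- **TIL**. The resolvent measure `Θ = ∑_{i,j} p⁻ⁱ q⁻ʲ (pⁱ qʲ)_* θ`.
Hint: `Measure.sum` over `ℕ × ℕ` of `ENNReal.ofReal (1 / (p^i q^j)) • θ.map (fun t => p^i q^j t)`; finite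
because `∑ p⁻ⁱ q⁻ʲ < ∞`; `hasSum_integral_measure`. The second part: apply the first one to
`F t = G t - G (p t) / p - ...`; the terms are `a(i,j) - a(i+1,j) - a(i,j+1) + a(i+1,j+1)`,
`a(i,j) = p⁻ⁱ q⁻ʲ ∫ G (pⁱ qʲ t) dθ`, absolutely summable; telescope (`Summable.tsum_prod`, or the partial
sums over the squares `range n ×ˢ range n`). -/
def S_TIL : Prop := ∀ p q : ℕ, 2 ≤ p → 2 ≤ q → ∀ θ : Measure ℝ, IsFiniteMeasure θ →
  ∃ Θ : Measure ℝ, IsFiniteMeasure Θ ∧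
    (∀ F : ℝ → ℂ, Measurable F → (∃ B : ℝ, ∀ t, ‖F t‖ ≤ B) →
      HasSum (fun ij : ℕ × ℕ => ((p : ℂ) ^ ij.1 * (q : ℂ) ^ ij.2)⁻¹ *
        ∫ t, F ((p : ℝ) ^ ij.1 * (q : ℝ) ^ ij.2 * t) ∂θ) (∫ t, F t ∂Θ)) ∧
    (∀ G : ℝ → ℝ, Measurable G → (∃ B : ℝ, ∀ t, |G t| ≤ B) →
      ∫ t, (G t - G (p * t) / p - G (q * t) / q + G (p * q * t) / (p * q)) ∂Θ = ∫ t, G t ∂θ)

/-- **ORB**. A finite `×p, ×q`-invariant system of points of the circle which is not symmetric.
Hint: by Dirichlet (`Nat.setOf_prime_and_eq_mod_infinite` / `Nat.infinite_setOf_prime_and_eq_mod`; or without it, with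
`N = 8 p q - 1` and `jacobiSym`) take a prime `ℓ ≡ -1` modulo `8 p q`. Modulo `ℓ`, `p` and `q` are squares
(quadratic reciprocity, `ZMod.exists_sq_eq_two_iff`, `legendreSym.quadratic_reciprocity'`), `-1` is not
(`ZMod.exists_sq_eq_neg_one_iff`). Let `H` be the subgroup of the squares (or the one generated by `p, q`) in
`(ZMod ℓ)ˣ`, `-1 ∉ H`. For `a ∈ ZMod ℓ` take the points `r_h = (h a).val / ℓ`, `h ∈ H` (index by `Fin n` with
`Fintype.equivFin H`), `σ, τ` = multiplication by `p, q`. If `∑_h sin(2π h a / ℓ) = 0` for all `a`, then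
`z_a = ∑_h e(h a / ℓ)` satisfies `z_{-a} = z_a`, so `∑_a e(-a c / ℓ) z_a = ℓ #{h ∈ H : h = c}` is an even
function of `c`; `c = 1` and `c = -1` give `-1 ∈ H`, a contradiction. -/
def S_ORB : Prop := ∀ p q : ℕ, p.Prime → q.Prime →
  ∃ (n : ℕ) (r : Fin n → ℝ) (σ τ : Equiv.Perm (Fin n)), 0 < n ∧
    (∀ i, ∃ m : ℤ, (p : ℝ) * r i = r (σ i) + m) ∧ (∀ i, ∃ m : ℤ, (q : ℝ) * r i = r (τ i) + m) ∧
    ∑ i, Real.sin (2 * Real.pi * r i) ≠ 0

/-- **CONV**. Convolution with the uniform measure on finitely many points.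
Hint: `μ' = (n : ℝ≥0∞)⁻¹ • ∑ i, μ.map (fun x => x + (r i : AddCircle 1))`. Invariance: push forward by `x ↦ p x`
sends the `i`-th term to the `σ i`-th (`Measure.map_map`, `p • (x + r i) = p • x + r (σ i)`), then
`Equiv.sum_comp`. -/
def S_CONV : Prop := ∀ (n : ℕ) (r : Fin n → ℝ), 0 < n → ∀ μ : Measure (AddCircle (1 : ℝ)),
  IsProbabilityMeasure μ → (∀ x, μ {x} = 0) →
  ∃ μ' : Measure (AddCircle (1 : ℝ)), IsProbabilityMeasure μ' ∧ (∀ x, μ' {x} = 0) ∧
    (∀ k : ℤ, ∫ x, fourier k x ∂μ' = ((∑ i, e1 (k * r i)) / n) * ∫ x, fourier k x ∂μ) ∧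
    ∀ p : ℕ, MeasurePreserving (fun x : AddCircle (1 : ℝ) => p • x) μ μ →
      (∃ σ : Equiv.Perm (Fin n), ∀ i, ∃ m : ℤ, (p : ℝ) * r i = r (σ i) + m) →
      MeasurePreserving (fun x : AddCircle (1 : ℝ) => p • x) μ' μ'

/-- **TRIV**. A right continuous convolution whose Fourier coefficients vanish is zero everywhere.
Hint: `W y = ∫ V (y - t) dΘ₁ - ∫ V (y - t) dΘ₂` is right continuous (dominated convergence), bounded, measurable,
of period 1; its Fourier coefficients are, by Fubini (`intervalIntegral`/`integral_integral_swap`) and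
periodicity, `(∫ e(-n t) dΘ₁ - ∫ e(-n t) dΘ₂) * ∫₀¹ e(-n u) V u du = 0`; so `W = 0` a.e. (uniqueness of Fourier
coefficients: `fourierBasis`/`AddCircle` `L²`, cf. `fourierCoeff`, `hasSum_sq_fourierCoeff`), and a right
continuous function which vanishes a.e. vanishes. -/
def S_TRIV : Prop := ∀ V : ℝ → ℝ, Measurable V → (∃ B : ℝ, ∀ t, |V t| ≤ B) → (∀ t, V (t + 1) = V t) →
  (∀ t, ContinuousWithinAt V (Set.Ici t) t) → ∀ Θ₁ Θ₂ : Measure ℝ, IsFiniteMeasure Θ₁ →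
  IsFiniteMeasure Θ₂ →
  (∀ n : ℤ, (∫ u in (0 : ℝ)..1, e1 (-(n * u)) * (V u : ℂ)) = 0 ∨
    ∫ t, e1 (-(n * t)) ∂Θ₁ = ∫ t, e1 (-(n * t)) ∂Θ₂) →
  ∀ y : ℝ, ∫ t, V (y - t) ∂Θ₁ = ∫ t, V (y - t) ∂Θ₂

/-- **FOUR**. Fourier coefficients in terms of the measures of REP.
Hint: replace `f` by the formula (a.e. on `[0, 1]`), Fubini, and
`∫₀¹ e(-n u) sw (u - t) du = -e(-n t) / (2 π i n)` for `n ≠ 0`, `∫₀¹ sw (u - t) du = 0` (periodicity; see
`coef_saw` in `Pool/Agent/U798/OP/D.lean` for a proof). -/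
def S_FOUR : Prop := ∀ (f : ℝ → ℝ) (θ₁ θ₂ : Measure ℝ) (c : ℝ), IsFiniteMeasure θ₁ → IsFiniteMeasure θ₂ →
  {x : ℝ | 0 ≤ x ∧ x < 1 ∧ f x ≠ c - (∫ t, sw (x - t) ∂θ₁) + ∫ t, sw (x - t) ∂θ₂}.Countable →
  (∫ u in (0 : ℝ)..1, f u) = c ∧ ∀ n : ℤ, n ≠ 0 →
    ∫ u in (0 : ℝ)..1, e1 (-(n * u)) * (f u : ℂ) =
      (1 / (2 * Real.pi * Complex.I * n)) * ((∫ t, e1 (-(n * t)) ∂θ₁) - ∫ t, e1 (-(n * t)) ∂θ₂)

/-- **SIEV**. Sieve for absolutely summable sequences.
Hint: for `y` let `P` be the product of the primes `≤ y` other than `p, q`. Summing the hypothesis for `d = m e`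
with the weights `μ(e)`, `e ∣ P`, gives `∑_{n ≠ 0, m ∣ n, gcd(n / m, P) = 1} c n = 0` (finite sum of `tsum`s;
`∑_{e ∣ gcd(n/m, P)} μ(e) = [gcd = 1]`). As `y → ∞` the indicator tends to the one of
`{± m pⁱ qʲ}` pointwise; `tendsto_tsum_of_dominated_convergence`; then reindex by
`(i, j) ↦ ± m pⁱ qʲ` (injective). -/
def S_SIEV : Prop := ∀ p q : ℕ, p.Prime → q.Prime → p ≠ q → ∀ c : ℤ → ℂ, Summable c →
  (∀ d : ℕ, 1 ≤ d → ¬ p ∣ d → ¬ q ∣ d → ∑' n : ℤ, (if n ≠ 0 ∧ (d : ℤ) ∣ n then c n else 0) = 0) →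
  ∀ m : ℕ, 1 ≤ m → ¬ p ∣ m → ¬ q ∣ m →
    ∑' ij : ℕ × ℕ, (c (m * p ^ ij.1 * q ^ ij.2) + c (-(m * p ^ ij.1 * q ^ ij.2))) = 0

/-- **RGRP**. Regrouping of an absolutely convergent series along the classes `m pⁱ qʲ`.
Hint: every `n ≠ 0` is uniquely `± m pⁱ qʲ` with `m ≥ 1` prime to `p q`. -/
def S_RGRP : Prop := ∀ p q : ℕ, p.Prime → q.Prime → p ≠ q → ∀ c : ℤ → ℂ, Summable c →
  (∀ m : ℕ, 1 ≤ m → ¬ p ∣ m → ¬ q ∣ m →
    ∑' ij : ℕ × ℕ, (c (m * p ^ ij.1 * q ^ ij.2) + c (-(m * p ^ ij.1 * q ^ ij.2))) = 0) →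
  ∑' n : ℤ, (if n ≠ 0 then c n else 0) = 0

/-- **LIM**. A `0`-`1`-valued function of bounded variation is constant on the right of `0`.
Hint: otherwise it alternates infinitely often. -/
def S_LIM : Prop := ∀ f : ℝ → ℝ, BoundedVariationOn f (Set.Icc 0 1) → (∀ t, f t = 0 ∨ f t = 1) →
  ∃ ε : ℝ, 0 < ε ∧ ((∀ t ∈ Set.Ioo 0 ε, f t = 0) ∨ ∀ t ∈ Set.Ioo 0 ε, f t = 1)

/-- **ARCS**. The indicator function of a finite union of arcs has bounded variation.
Hint: indicator functions of intervals are differences of monotone functions; the indicator of a union is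
`1 - ∏ (1 - ..)` (`BoundedVariationOn` of products), or induction on `n` with `max`/sums. -/
def S_ARCS : Prop := ∀ (n : ℕ) (α β : Fin n → ℝ), BoundedVariationOn
  (fun t : ℝ => Set.indicator {t : ℝ | ∃ i, α i ≤ Int.fract t ∧ Int.fract t < β i} (fun _ => (1 : ℝ)) t)
  (Set.Icc 0 1)

/-- **DAV**. Davenport's estimate for the frequencies prime to `p q`.
Hint: `ser_limit` in `Pool/Agent/U798/MN/D4.lean` (`import Pool.Agent.U798.OP.D`) for the principal character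
`1` modulo `b = p q` (`U = 0`): `tgt 1 y = sin (2 π y) / π`, and `dig 1 y = -V p q y` for all `y`:
`dig χ t = ∑_{j<b} wt χ j * saw (t + j / b)`, `wt 1 j = -(1/b) ∑_{m<b, (m,b)=1} e(-m j / b)`; write the
condition `(m, b) = 1` as `1 - [p ∣ m] - [q ∣ m] + [p q ∣ m]` (primes!), sum the geometric sums, and use
`saw_mult` (`Pool/Agent/U798/OP/A.lean`): `∑_{j<k} saw (z + j / k) = saw (k z)`. (Or compare Fourier
coefficients: `coef_vv` in `OP/D`, `ae_to_point`, `contAt_dig` in `OP/G`, which give it for irrational `y`.) -/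
def S_DAV : Prop := ∀ p q : ℕ, p.Prime → q.Prime → p ≠ q → ∃ (C : ℝ) (K0 : ℕ), 3 ≤ K0 ∧
  ∀ K : ℕ, K0 ≤ K → ∀ y : ℝ, Irrational y →
    |(∑ k ∈ (Finset.Icc 1 K).filter (fun k => ¬ p ∣ k ∧ ¬ q ∣ k),
      ((ArithmeticFunction.moebius k : ℤ) : ℝ) / k * V p q (k * y)) +
        Real.sin (2 * Real.pi * y) / Real.pi| ≤ C / Real.log K

end Pool.Agent.U798.BV
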