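import Pool.Agent.U798.OP.E
import Pool.Agent.U798.BV.Spec

set_option autoImplicit false

open MeasureTheory Filter Topology
open Pool.Agent.H807R2.Dav
open Pool.Agent.U798.MN Pool.Agent.U798.FA Pool.Agent.U798.OP

namespace Pool.Agent.U798.BV

lemma sw_eq (t : ℝ) : sw t = saw t := rfl
lemma e1_eq (t : ℝ) : e1 t = ee t := rfl

lemma meas_sw : Measurable sw := measurable_saw
lemma abs_sw (t : ℝ) : |sw t| ≤ 1 / 2 := abs_saw_le t
lemma sw_add_int (t : ℝ) (m : ℤ) : sw (t + m) = sw t := saw_add_int t m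

lemma meas_V (p q : ℕ) : Measurable (V p q) := by
  unfold V
  exact ((meas_sw.sub ((meas_sw.comp (measurable_const_mul (p : ℝ))).div_const _)).sub
    ((meas_sw.comp (measurable_const_mul (q : ℝ))).div_const _)).add
    ((meas_sw.comp (measurable_const_mul ((p : ℝ) * q))).div_const _)

lemma abs_V (p q : ℕ) (hp : 2 ≤ p) (hq : 2 ≤ q) (t : ℝ) : |V p q t| ≤ 2 := by
  have h := abs_vv p q hp hq t 0
  have e : vv p q t 0 = V p q t := by
    unfold vv V
    simp only [sw_eq]
    push_cast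
    simp
  rwa [e] at h

lemma V_add_int (p q : ℕ) (t : ℝ) (m : ℤ) : V p q (t + m) = V p q t := by
  unfold V
  have e1 : (p : ℝ) * (t + m) = p * t + ((p * m : ℤ) : ℝ) := by push_cast; ring
  have e2 : (q : ℝ) * (t + m) = q * t + ((q * m : ℤ) : ℝ) := by push_cast; ring
  have e3 : (p : ℝ) * q * (t + m) = p * q * t + ((p * q * m : ℤ) : ℝ) := by push_cast; ring
  rw [e1, e2, e3, sw_add_int, sw_add_int, sw_add_int, sw_add_int]

lemma law_null (μ : Measure UnitAddCircle) [NullSingletonClass μ] (S : Set ℝ) (hS : S.Countable) :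
    law μ S = 0 := by
  have h1 : ∀ y : ℝ, law μ {y} = 0 := by
    intro y
    unfold law
    rw [Measure.map_apply meas_rep (measurableSet_singleton y)]
    refine Set.Subsingleton.measure_zero ?_ μ
    intro a ha b hb
    have : rep a = rep b := by
      rw [Set.mem_preimage, Set.mem_singleton_iff] at ha hb
      rw [ha, hb]
    rw [← coe_rep a, ← coe_rep b, this]
  rw [← Set.biUnion_of_singleton S]
  exact (measure_biUnion_null_iff hS).2 fun y _ => h1 y

/-- the integral of `V (y - t)` -/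
noncomputable def vf (p q : ℕ) (μ : Measure UnitAddCircle) (t : ℝ) : ℝ :=
  ∫ y, V p q (y - t) ∂(law μ)

lemma integrable_bdd (P : Measure ℝ) [IsFiniteMeasure P] (f : ℝ → ℝ) (hf : Measurable f) (B : ℝ)
    (hB : ∀ t, |f t| ≤ B) : Integrable f P :=
  Integrable.of_bound hf.aestronglyMeasurable B
    (Eventually.of_forall fun y => by rw [Real.norm_eq_abs]; exact hB y)

lemma vf_eq (p q : ℕ) (μ : Measure UnitAddCircle) [IsProbabilityMeasure μ]
    (h2 : MeasurePreserving (fun x : UnitAddCircle => p • x) μ μ)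
    (h3 : MeasurePreserving (fun x : UnitAddCircle => q • x) μ μ) (t : ℝ) :
    vf p q μ t = gf μ t - gf μ (p * t) / p - gf μ (q * t) / q + gf μ (p * q * t) / (p * q) := by
  have i : ∀ (a s : ℝ), Integrable (fun y : ℝ => sw (a * y - s)) (law μ) := fun a s =>
    integrable_bdd _ _ (meas_sw.comp ((measurable_const_mul a).sub_const s)) (1 / 2)
      (fun t => abs_sw _)
  have e : ∀ y : ℝ, V p q (y - t) = sw (1 * y - t) - sw (p * y - p * t) / p -
      sw (q * y - q * t) / q + sw (p * q * y - p * q * t) / (p * q) := by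
    intro y
    unfold V
    have a1 : (p : ℝ) * (y - t) = p * y - p * t := by ring
    have a2 : (q : ℝ) * (y - t) = q * y - q * t := by ring
    have a3 : (p : ℝ) * q * (y - t) = p * q * y - p * q * t := by ring
    rw [a1, a2, a3, one_mul]
  unfold vf
  simp_rw [e]
  have i1 : Integrable (fun y : ℝ => sw (1 * y - t)) (law μ) := i 1 t
  have i2 : Integrable (fun y : ℝ => sw (p * y - p * t) / p) (law μ) := (i p (p * t)).div_const _
  have i3 : Integrable (fun y : ℝ => sw (q * y - q * t) / q) (law μ) := (i q (q * t)).div_const _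
  have i4 : Integrable (fun y : ℝ => sw (p * q * y - p * q * t) / (p * q)) (law μ) :=
    (i (p * q) (p * q * t)).div_const _
  have i12 : Integrable (fun y : ℝ => sw (1 * y - t) - sw (p * y - p * t) / p) (law μ) := i1.sub i2
  have i123 : Integrable (fun y : ℝ => sw (1 * y - t) - sw (p * y - p * t) / p -
    sw (q * y - q * t) / q) (law μ) := i12.sub i3
  rw [integral_add i123 i4, integral_sub i12 i3, integral_sub i1 i2, integral_div, integral_div,
    integral_div]
  have c1 : ∫ y, sw (1 * y - t) ∂(law μ) = gf μ t := by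
    unfold gf
    simp only [one_mul, sw_eq]
  have c2 : ∫ y, sw (p * y - p * t) ∂(law μ) = gf μ (p * t) := gf_inv p μ h2 _
  have c3 : ∫ y, sw (q * y - q * t) ∂(law μ) = gf μ (q * t) := gf_inv q μ h3 _
  have c4 : ∫ y, sw (p * q * y - p * q * t) ∂(law μ) = gf μ (p * q * t) := by
    have h4 := law_inv_real q μ h3 (fun u => sw (p * u - p * q * t))
      (meas_sw.comp ((measurable_const_mul (p : ℝ)).sub_const _)) (fun u m => by
        have : (p : ℝ) * (u + m) - p * q * t = (p * u - p * q * t) + ((p * m : ℤ) : ℝ) := by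
          push_cast; ring
        rw [this, sw_add_int])
    have h5 : ∀ y : ℝ, sw (p * q * y - p * q * t) = sw (p * (q * y) - p * q * t) := by
      intro y
      rw [mul_assoc (p : ℝ) q y]
    simp_rw [h5]
    rw [h4]
    exact gf_inv p μ h2 _
  rw [c1, c2, c3, c4]

lemma vf_dv (p q k : ℕ) (hk : 1 ≤ k) (hpk : Nat.Coprime p k) (hqk : Nat.Coprime q k)
    (μ : Measure UnitAddCircle) (h : Joint p q μ) (t : ℝ) :
    vf p q (dv k μ) t = (1 / k) * vf p q μ (k * t) := by
  have h1 := h.1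
  have h4 := joint_dv k hk hpk hqk h
  have h5 := h4.1
  rw [vf_eq p q _ h4.2.2.1 h4.2.2.2, vf_eq p q _ h.2.2.1 h.2.2.2]
  rw [dv_gf k hk, dv_gf k hk, dv_gf k hk, dv_gf k hk]
  have a1 : (k : ℝ) * (p * t) = p * (k * t) := by ring
  have a2 : (k : ℝ) * (q * t) = q * (k * t) := by ring
  have a3 : (k : ℝ) * (p * q * t) = p * q * (k * t) := by ring
  rw [a1, a2, a3]
  ring

lemma vf_dil (p q g : ℕ) (μ : Measure UnitAddCircle) (t : ℝ) :
    vf p q (dil g μ) t = ∫ y, V p q (g * y - t) ∂(law μ) := by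
  have h1 := law_dil g μ (fun y => ((V p q (y - t) : ℝ) : ℂ))
    (Complex.measurable_ofReal.comp ((meas_V p q).comp (measurable_id.sub_const t)))
    (fun y z => by
      have : y + (z : ℝ) - t = (y - t) + z := by ring
      simp only
      rw [this, V_add_int])
  rw [integral_complex_ofReal, integral_complex_ofReal] at h1
  unfold vf
  exact_mod_cast h1.symm

/-- the hypothesis in reduced form -/
def HH (p q : ℕ) (Θ₁ Θ₂ : Measure ℝ) : Prop :=
  ∀ μ : Measure UnitAddCircle, Joint p q μ → ∫ t, vf p q μ t ∂Θ₁ = ∫ t, vf p q μ t ∂Θ₂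

lemma HH_step {p q : ℕ} (hp : p.Prime) (hq : q.Prime) {Θ₁ Θ₂ : Measure ℝ} (H : HH p q Θ₁ Θ₂)
    (μ : Measure UnitAddCircle) (hμ : Joint p q μ) (g d : ℕ) (hg : 1 ≤ g) (hd : 1 ≤ d)
    (hpg : ¬ p ∣ g) (hqg : ¬ q ∣ g) (hpd : ¬ p ∣ d) (hqd : ¬ q ∣ d) :
    ∫ t, (∫ y, V p q (g * (y - d * t)) ∂(law μ)) ∂Θ₁ =
      ∫ t, (∫ y, V p q (g * (y - d * t)) ∂(law μ)) ∂Θ₂ := by
  have hg0 : (g : ℤ) ≠ 0 := by exact_mod_cast (by omega : g ≠ 0)
  have h1 := joint_dil (g : ℤ) hg0 hμ
  have hgd : 1 ≤ g * d := Nat.mul_pos hg hd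
  have c1 : Nat.Coprime p (g * d) := (Nat.Prime.coprime_iff_not_dvd hp).2 fun h =>
    ((Nat.Prime.dvd_mul hp).1 h).elim hpg hpd
  have c2 : Nat.Coprime q (g * d) := (Nat.Prime.coprime_iff_not_dvd hq).2 fun h =>
    ((Nat.Prime.dvd_mul hq).1 h).elim hqg hqd
  have h2 := H _ (joint_dv (g * d) hgd c1 c2 h1)
  have e : ∀ t : ℝ, vf p q (dv (g * d) (dil g μ)) t =
      (1 / ((g * d : ℕ) : ℝ)) * ∫ y, V p q (g * (y - d * t)) ∂(law μ) := by
    intro t
    rw [vf_dv p q (g * d) hgd c1 c2 _ h1, vf_dil]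
    have : ∀ y : ℝ, (g : ℝ) * y - ((g * d : ℕ) : ℝ) * t = g * (y - d * t) := by
      intro y
      push_cast
      ring
    simp_rw [this]
  simp_rw [e] at h2
  rw [integral_const_mul, integral_const_mul] at h2
  have h3 : (1 / ((g * d : ℕ) : ℝ)) ≠ 0 := by
    have : ((g * d : ℕ) : ℝ) ≠ 0 := by exact_mod_cast (by omega : g * d ≠ 0)
    exact one_div_ne_zero this
  exact mul_left_cancel₀ h3 h2

end Pool.Agent.U798.BV
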