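import Pool.Agent.U798.BV.Core

set_option autoImplicit false

open MeasureTheory Filter Topology
open Pool.Agent.H807R2.Dav
open Pool.Agent.U798.MN Pool.Agent.U798.FA Pool.Agent.U798.OP

namespace Pool.Agent.U798.BV

lemma prodI (Θ P : Measure ℝ) [IsFiniteMeasure Θ] [IsProbabilityMeasure P] (d : ℝ) (F : ℝ → ℝ)
    (hF : Measurable F) (B : ℝ) (hB : ∀ t, |F t| ≤ B) :
    ∫ t, (∫ y, F (y - d * t) ∂P) ∂Θ = ∫ z, F (z.2 - d * z.1) ∂(Θ.prod P) := by
  rw [integral_prod]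
  refine Integrable.of_bound ?_ B (Eventually.of_forall fun z => by
    rw [Real.norm_eq_abs]; exact hB _)
  exact (hF.comp (measurable_snd.sub (measurable_fst.const_mul d))).aestronglyMeasurable

lemma intI (M : Measure (ℝ × ℝ)) [IsFiniteMeasure M] (d : ℝ) (F : ℝ → ℝ)
    (hF : Measurable F) (B : ℝ) (hB : ∀ t, |F t| ≤ B) :
    Integrable (fun z : ℝ × ℝ => F (z.2 - d * z.1)) M :=
  Integrable.of_bound (hF.comp (measurable_snd.sub (measurable_fst.const_mul d))).aestronglyMeasurable B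
    (Eventually.of_forall fun z => by rw [Real.norm_eq_abs]; exact hB _)

lemma ae_irr (Θ : Measure ℝ) [IsFiniteMeasure Θ] (μ : Measure UnitAddCircle)
    [IsProbabilityMeasure μ] [NullSingletonClass μ] (d : ℝ) :
    ∀ᵐ z ∂(Θ.prod (law μ)), Irrational (z.2 - d * z.1) := by
  have hm : MeasurableSet {z : ℝ × ℝ | ¬ Irrational (z.2 - d * z.1)} := by
    have : {z : ℝ × ℝ | ¬ Irrational (z.2 - d * z.1)} =
        (fun z : ℝ × ℝ => z.2 - d * z.1) ⁻¹' (Set.range ((↑) : ℚ → ℝ)) := by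
      ext z
      simp [Irrational]
    rw [this]
    exact (measurable_snd.sub (measurable_fst.const_mul d)) (Set.countable_range _).measurableSet
  have h0 : (Θ.prod (law μ)) {z : ℝ × ℝ | ¬ Irrational (z.2 - d * z.1)} = 0 := by
    rw [Measure.measure_prod_null hm]
    refine Eventually.of_forall fun t => ?_
    simp only [Pi.zero_apply]
    refine law_null μ _ ?_
    have : (Prod.mk t ⁻¹' {z : ℝ × ℝ | ¬ Irrational (z.2 - d * z.1)}) ⊆
        Set.range (fun r : ℚ => (r : ℝ) + d * t) := by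
      intro y hy
      simp only [Set.mem_preimage, Set.mem_ofPred_eq, Irrational, not_not] at hy
      obtain ⟨r, hr⟩ := hy
      exact ⟨r, by simp only; linarith⟩
    exact (Set.countable_range _).mono this
  exact h0

/-- the main identity -/
lemma main_id (hDAV : S_DAV) {p q : ℕ} (hp : p.Prime) (hq : q.Prime) (hpq : p ≠ q)
    {Θ₁ Θ₂ : Measure ℝ} [IsFiniteMeasure Θ₁] [IsFiniteMeasure Θ₂] (H : HH p q Θ₁ Θ₂)
    (μ : Measure UnitAddCircle) (hμ : Joint p q μ) (d : ℕ) (hd : 1 ≤ d)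
    (hpd : ¬ p ∣ d) (hqd : ¬ q ∣ d) :
    ∫ z, Real.sin (2 * Real.pi * (z.2 - d * z.1)) ∂(Θ₁.prod (law μ)) =
      ∫ z, Real.sin (2 * Real.pi * (z.2 - d * z.1)) ∂(Θ₂.prod (law μ)) := by
  have hm1 := hμ.1
  have hm2 := hμ.2.1
  obtain ⟨C, K0, hK0, hC⟩ := hDAV p q hp hq hpq
  have hp2 := hp.two_le
  have hq2 := hq.two_le
  set SS : ℕ → Finset ℕ := fun K => (Finset.Icc 1 K).filter (fun k => ¬ p ∣ k ∧ ¬ q ∣ k) with hSS
  set w : ℕ → ℝ := fun k => ((ArithmeticFunction.moebius k : ℤ) : ℝ) / k with hw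
  -- the integrals of the partial sums agree
  have hVb : ∀ (k : ℕ) (t : ℝ), |V p q (k * t)| ≤ 2 := fun k t => abs_V p q hp2 hq2 _
  have hVm : ∀ k : ℕ, Measurable fun t : ℝ => V p q (k * t) := fun k =>
    (meas_V p q).comp (measurable_const_mul (k : ℝ))
  have hsum : ∀ (Θ : Measure ℝ) [IsFiniteMeasure Θ] (K : ℕ),
      ∫ z, (∑ k ∈ SS K, w k * V p q (k * (z.2 - d * z.1))) ∂(Θ.prod (law μ)) =
      ∑ k ∈ SS K, w k * ∫ t, (∫ y, V p q (k * (y - d * t)) ∂(law μ)) ∂Θ := by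
    intro Θ _ K
    rw [integral_finsetSum]
    · refine Finset.sum_congr rfl fun k _ => ?_
      rw [integral_const_mul]
      rw [prodI Θ (law μ) d (fun t => V p q (k * t)) (hVm k) 2 (hVb k)]
    · intro k _
      exact (intI _ d (fun t => V p q (k * t)) (hVm k) 2 (hVb k)).const_mul _
  have heq : ∀ K : ℕ,
      ∫ z, (∑ k ∈ SS K, w k * V p q (k * (z.2 - d * z.1))) ∂(Θ₁.prod (law μ)) =
      ∫ z, (∑ k ∈ SS K, w k * V p q (k * (z.2 - d * z.1))) ∂(Θ₂.prod (law μ)) := by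
    intro K
    rw [hsum Θ₁ K, hsum Θ₂ K]
    refine Finset.sum_congr rfl fun k hk => ?_
    rw [hSS, Finset.mem_filter, Finset.mem_Icc] at hk
    rw [HH_step hp hq H μ hμ k d hk.1.1 hd hk.2.1 hk.2.2 hpd hqd]
  -- the distance to the limit
  have hbd : ∀ (Θ : Measure ℝ) [IsFiniteMeasure Θ] (K : ℕ), K0 ≤ K →
      |∫ z, (∑ k ∈ SS K, w k * V p q (k * (z.2 - d * z.1))) ∂(Θ.prod (law μ)) +
        (∫ z, Real.sin (2 * Real.pi * (z.2 - d * z.1)) ∂(Θ.prod (law μ))) / Real.pi| ≤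
      C / Real.log K * (Θ.prod (law μ)).real Set.univ := by
    intro Θ _ K hK
    have i1 : Integrable (fun z : ℝ × ℝ => ∑ k ∈ SS K, w k * V p q (k * (z.2 - d * z.1)))
        (Θ.prod (law μ)) :=
      integrable_finsetSum _ fun k _ =>
        (intI _ d (fun t => V p q (k * t)) (hVm k) 2 (hVb k)).const_mul _
    have i2 : Integrable (fun z : ℝ × ℝ => Real.sin (2 * Real.pi * (z.2 - d * z.1)) / Real.pi)
        (Θ.prod (law μ)) :=
      (intI _ d (fun t => Real.sin (2 * Real.pi * t))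
        (Real.measurable_sin.comp (measurable_const_mul _)) 1
        (fun t => Real.abs_sin_le_one _)).div_const _
    rw [← integral_div, ← integral_add i1 i2, ← Real.norm_eq_abs]
    refine norm_integral_le_of_norm_le_const ?_
    filter_upwards [ae_irr Θ μ d] with z hz
    rw [Real.norm_eq_abs]
    exact hC K hK _ hz
  -- pass to the limit
  set A := ∫ z, Real.sin (2 * Real.pi * (z.2 - d * z.1)) ∂(Θ₁.prod (law μ)) with hA
  set B := ∫ z, Real.sin (2 * Real.pi * (z.2 - d * z.1)) ∂(Θ₂.prod (law μ)) with hB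
  have hle : ∀ K : ℕ, K0 ≤ K → |A / Real.pi - B / Real.pi| ≤
      C / Real.log K * ((Θ₁.prod (law μ)).real Set.univ + (Θ₂.prod (law μ)).real Set.univ) := by
    intro K hK
    have g1 := hbd Θ₁ K hK
    have g2 := hbd Θ₂ K hK
    have g3 := heq K
    rw [g3] at g1
    rw [abs_le] at g1 g2 ⊢
    rw [mul_add]
    constructor <;> linarith [g1.1, g1.2, g2.1, g2.2]
  have hlim : Tendsto (fun K : ℕ => C / Real.log K *
      ((Θ₁.prod (law μ)).real Set.univ + (Θ₂.prod (law μ)).real Set.univ)) atTop (𝓝 0) := by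
    have h1 : Tendsto (fun K : ℕ => Real.log K) atTop atTop :=
      Real.tendsto_log_atTop.comp tendsto_natCast_atTop_atTop
    have h2 := (h1.const_div_atTop C).mul_const
      ((Θ₁.prod (law μ)).real Set.univ + (Θ₂.prod (law μ)).real Set.univ)
    rwa [zero_mul] at h2
  have h0 : |A / Real.pi - B / Real.pi| ≤ 0 :=
    ge_of_tendsto hlim (eventually_atTop.2 ⟨K0, hle⟩)
  have h1 : A / Real.pi - B / Real.pi = 0 := abs_eq_zero.1 (le_antisymm h0 (abs_nonneg _))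
  have hpi := Real.pi_ne_zero
  have h2 : (A - B) / Real.pi = 0 := by rw [sub_div]; exact h1
  have h3 : A - B = 0 := by
    rcases div_eq_zero_iff.1 h2 with h | h
    · exact h
    · exact absurd h hpi
  linarith

/-- the Fourier transform of the resolvent measure -/
noncomputable def ft (Θ : Measure ℝ) (n : ℤ) : ℂ := ∫ t, e1 (-(n * t)) ∂Θ

lemma norm_e1 (t : ℝ) : ‖e1 t‖ = 1 := norm_ee t

lemma cont_e1 : Continuous e1 := cont_ee

lemma e1_add (s t : ℝ) : e1 (s + t) = e1 s * e1 t := ee_add s t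

lemma prod_e1 (Θ : Measure ℝ) [IsFiniteMeasure Θ] (μ : Measure UnitAddCircle)
    [IsProbabilityMeasure μ] (d : ℕ) :
    ∫ z, e1 (z.2 - d * z.1) ∂(Θ.prod (law μ)) = ft Θ d * ∫ x, (fourier 1 x : ℂ) ∂μ := by
  have e : ∀ z : ℝ × ℝ, e1 (z.2 - d * z.1) = e1 (-(((d : ℤ) : ℝ) * z.1)) * e1 z.2 := by
    intro z
    rw [← e1_add]
    congr 1
    push_cast
    ring
  simp_rw [e]
  rw [integral_prod_mul (fun t : ℝ => e1 (-(((d : ℤ) : ℝ) * t))) (fun y : ℝ => e1 y)]
  unfold ft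
  congr 1
  have h := integral_law μ 1
  simp only [Int.cast_one, one_mul] at h
  exact h

lemma im_e1 (t : ℝ) : (e1 t).im = Real.sin (2 * Real.pi * t) := by
  unfold e1
  have : (2 * Real.pi * Complex.I * t : ℂ) = ((2 * Real.pi * t : ℝ) : ℂ) * Complex.I := by
    push_cast; ring
  rw [this, Complex.exp_ofReal_mul_I_im]

lemma sin_id (Θ : Measure ℝ) [IsFiniteMeasure Θ] (μ : Measure UnitAddCircle)
    [IsProbabilityMeasure μ] (d : ℕ) :
    ∫ z, Real.sin (2 * Real.pi * (z.2 - d * z.1)) ∂(Θ.prod (law μ)) =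
      (ft Θ d * ∫ x, (fourier 1 x : ℂ) ∂μ).im := by
  rw [← prod_e1 Θ μ d]
  have hi : Integrable (fun z : ℝ × ℝ => e1 (z.2 - d * z.1)) (Θ.prod (law μ)) :=
    Integrable.of_bound (cont_e1.comp (by fun_prop)).aestronglyMeasurable 1
      (Eventually.of_forall fun z => (norm_e1 _).le)
  have h := integral_im hi
  rw [show (∫ z, e1 (z.2 - d * z.1) ∂(Θ.prod (law μ))).im =
    RCLike.im (∫ z, e1 (z.2 - d * z.1) ∂(Θ.prod (law μ))) from rfl, ← h]
  refine integral_congr_ae (Eventually.of_forall fun z => ?_)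
  exact (im_e1 _).symm

/-- the relation between the Fourier coefficients -/
lemma rel (hDAV : S_DAV) {p q : ℕ} (hp : p.Prime) (hq : q.Prime) (hpq : p ≠ q)
    {Θ₁ Θ₂ : Measure ℝ} [IsFiniteMeasure Θ₁] [IsFiniteMeasure Θ₂] (H : HH p q Θ₁ Θ₂)
    (μ : Measure UnitAddCircle) (hμ : Joint p q μ) (d : ℕ) (hd : 1 ≤ d)
    (hpd : ¬ p ∣ d) (hqd : ¬ q ∣ d) :
    ((ft Θ₁ d - ft Θ₂ d) * ∫ x, (fourier 1 x : ℂ) ∂μ).im = 0 := by
  have := hμ.1
  have h := main_id hDAV hp hq hpq H μ hμ d hd hpd hqd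
  rw [sin_id, sin_id] at h
  rw [sub_mul, Complex.sub_im, h, sub_self]

/-- multiplication of the first coefficient by a nonreal number -/
lemma twist (hORB : S_ORB) (hCONV : S_CONV) {p q : ℕ} (hp : p.Prime) (hq : q.Prime) :
    ∃ z : ℂ, z.im ≠ 0 ∧ ∀ μ : Measure UnitAddCircle, Joint p q μ →
      ∃ μ' : Measure UnitAddCircle, Joint p q μ' ∧
        ∫ x, (fourier 1 x : ℂ) ∂μ' = z * ∫ x, (fourier 1 x : ℂ) ∂μ := by
  obtain ⟨n, r, σ, τ, hn, hσ, hτ, hs⟩ := hORB p q hp hq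
  refine ⟨(∑ i, e1 (r i)) / n, ?_, ?_⟩
  · have h1 : ((∑ i, e1 (r i)) / (n : ℂ)).im = (∑ i, Real.sin (2 * Real.pi * r i)) / n := by
      have h2 : ((∑ i, e1 (r i)) / (n : ℂ)) = ((1 / n : ℝ) : ℂ) * ∑ i, e1 (r i) := by
        push_cast; ring
      rw [h2, Complex.im_ofReal_mul, Complex.im_sum]
      simp_rw [im_e1]
      ring
    rw [h1]
    have hn0 : (n : ℝ) ≠ 0 := by exact_mod_cast hn.ne'
    exact div_ne_zero hs hn0
  · intro μ hμ
    obtain ⟨μ', h1, h2, h3, h4⟩ := hCONV n r hn μ hμ.1 (fun x => hμ.2.1.measure_singleton x)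
    refine ⟨μ', ⟨h1, ⟨h2⟩, h4 p hμ.2.2.1 ⟨σ, hσ⟩, h4 q hμ.2.2.2 ⟨τ, hτ⟩⟩, ?_⟩
    have h5 := h3 1
    simp only [Int.cast_one, one_mul] at h5
    exact h5

lemma algebra {R z h : ℂ} (hR : R ≠ 0) (hz : z.im ≠ 0) (h1 : (R * h).im = 0)
    (h2 : (R * (starRingEnd ℂ) h).im = 0) (h3 : (R * (z * h)).im = 0)
    (h4 : (R * (starRingEnd ℂ) (z * h)).im = 0) : h = 0 := by
  simp only [Complex.mul_im, Complex.mul_re, Complex.conj_re, Complex.conj_im] at h1 h2 h3 h4
  have k1 : R.re * h.im = 0 := by linarith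
  have k2 : R.im * h.re = 0 := by linarith
  have k3 : R.re * (z.re * h.im + z.im * h.re) = 0 := by linarith
  have k4 : R.im * (z.re * h.re - z.im * h.im) = 0 := by linarith
  by_cases hr : R.re = 0
  · have hi : R.im ≠ 0 := by
      intro hi
      exact hR (Complex.ext hr hi)
    have a1 : h.re = 0 := (mul_eq_zero.1 k2).resolve_left hi
    have a2 := (mul_eq_zero.1 k4).resolve_left hi
    rw [a1, mul_zero, zero_sub, neg_eq_zero] at a2
    have a3 : h.im = 0 := (mul_eq_zero.1 a2).resolve_left hz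
    exact Complex.ext a1 a3
  · have a1 : h.im = 0 := (mul_eq_zero.1 k1).resolve_left hr
    have a2 := (mul_eq_zero.1 k3).resolve_left hr
    rw [a1, mul_zero, zero_add] at a2
    have a3 : h.re = 0 := (mul_eq_zero.1 a2).resolve_left hz
    exact Complex.ext a3 a1

/-- vanishing of the first coefficient of all the invariant measures is enough -/
lemma of_first (p q : ℕ) (h : ∀ μ : Measure UnitAddCircle, Joint p q μ →
    ∫ x, (fourier 1 x : ℂ) ∂μ = 0) (μ : Measure UnitAddCircle) (hμ : Joint p q μ) :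
    μ = (volume : Measure UnitAddCircle) := by
  have h1 := hμ.1
  apply fourier_ext_pos
  intro n hn
  have hn0 : (n : ℤ) ≠ 0 := by exact_mod_cast (by omega : n ≠ 0)
  rw [int_fourier_vol _ hn0]
  have h3 := h _ (joint_dil (n : ℤ) hn0 hμ)
  rw [dil_fourier, mul_one] at h3
  exact h3

/-- **CORE** -/
theorem core (hDAV : S_DAV) (hORB : S_ORB) (hCONV : S_CONV) {p q : ℕ} (hp : p.Prime)
    (hq : q.Prime) (hpq : p ≠ q)
    {Θ₁ Θ₂ : Measure ℝ} [IsFiniteMeasure Θ₁] [IsFiniteMeasure Θ₂] (H : HH p q Θ₁ Θ₂)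
    (d : ℕ) (hd : 1 ≤ d) (hpd : ¬ p ∣ d) (hqd : ¬ q ∣ d) (hR : ft Θ₁ d ≠ ft Θ₂ d) :
    ∀ μ : Measure UnitAddCircle, Joint p q μ → μ = (volume : Measure UnitAddCircle) := by
  refine of_first p q fun μ hμ => ?_
  obtain ⟨z, hz, hT⟩ := twist hORB hCONV hp hq
  obtain ⟨μ', hμ', he⟩ := hT μ hμ
  have hneg : ∀ ν : Measure UnitAddCircle, Joint p q ν →
      ∫ x, (fourier 1 x : ℂ) ∂(dil (-1) ν) = (starRingEnd ℂ) (∫ x, (fourier 1 x : ℂ) ∂ν) := by
    intro ν hν
    rw [dil_fourier, ← fourier_conj]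
    norm_num
  have r1 := rel hDAV hp hq hpq H μ hμ d hd hpd hqd
  have r2 := rel hDAV hp hq hpq H _ (joint_dil (-1) (by norm_num) hμ) d hd hpd hqd
  have r3 := rel hDAV hp hq hpq H μ' hμ' d hd hpd hqd
  have r4 := rel hDAV hp hq hpq H _ (joint_dil (-1) (by norm_num) hμ') d hd hpd hqd
  rw [hneg μ hμ] at r2
  rw [hneg μ' hμ', he] at r4
  rw [he] at r3
  exact algebra (sub_ne_zero.2 hR) hz r1 r2 r3 r4

/-- symmetry of all the invariant measures is equivalent to the conjecture -/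
theorem core_sym (hORB : S_ORB) (hCONV : S_CONV) {p q : ℕ} (hp : p.Prime)
    (hq : q.Prime)
    (H : ∀ μ : Measure UnitAddCircle, Joint p q μ → μ.map (fun x => -x) = μ) :
    ∀ μ : Measure UnitAddCircle, Joint p q μ → μ = (volume : Measure UnitAddCircle) := by
  refine of_first p q fun μ hμ => ?_
  obtain ⟨z, hz, hT⟩ := twist hORB hCONV hp hq
  obtain ⟨μ', hμ', he⟩ := hT μ hμ
  have hre : ∀ ν : Measure UnitAddCircle, Joint p q ν → (∫ x, (fourier 1 x : ℂ) ∂ν).im = 0 := by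
    intro ν hν
    have := hν.1
    have h1 := (sym_fourier ν).1 (H ν hν) 1
    rw [fourier_conj] at h1
    exact Complex.conj_eq_iff_im.1 h1
  have a1 := hre μ hμ
  have a2 := hre μ' hμ'
  rw [he, Complex.mul_im, a1, mul_zero, zero_add] at a2
  exact Complex.ext ((mul_eq_zero.1 a2).resolve_left hz) a1

end Pool.Agent.U798.BV
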