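import Pool.Agent.U798.BV.Core2

set_option autoImplicit false

open MeasureTheory Filter Topology
open Pool.Agent.H807R2.Dav
open Pool.Agent.U798.MN Pool.Agent.U798.FA Pool.Agent.U798.OP

namespace Pool.Agent.U798.BV

/-- the representing function of REP -/
noncomputable def Fr (θ₁ θ₂ : Measure ℝ) (c y : ℝ) : ℝ :=
  c - (∫ t, sw (y - t) ∂θ₁) + ∫ t, sw (y - t) ∂θ₂

lemma meas_int_sw (θ : Measure ℝ) [IsFiniteMeasure θ] : Measurable fun y : ℝ => ∫ t, sw (y - t) ∂θ := by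
  have h : StronglyMeasurable (fun z : ℝ × ℝ => sw (z.1 - z.2)) :=
    (meas_sw.comp (measurable_fst.sub measurable_snd)).stronglyMeasurable
  exact (h.integral_prod_right').measurable

lemma abs_int_sw (θ : Measure ℝ) [IsFiniteMeasure θ] (y : ℝ) :
    |∫ t, sw (y - t) ∂θ| ≤ 1 / 2 * θ.real Set.univ := by
  rw [← Real.norm_eq_abs]
  exact norm_integral_le_of_norm_le_const (Eventually.of_forall fun t => by
    rw [Real.norm_eq_abs]; exact abs_sw _)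

lemma swap_sw (θ : Measure ℝ) [IsFiniteMeasure θ] (μ : Measure UnitAddCircle)
    [IsProbabilityMeasure μ] :
    ∫ y, (∫ t, sw (y - t) ∂θ) ∂(law μ) = ∫ t, gf μ t ∂θ := by
  unfold gf
  refine integral_integral_swap ?_
  refine Integrable.of_bound ?_ (1 / 2) (Eventually.of_forall fun z => by
    rw [Real.norm_eq_abs]; exact abs_sw _)
  exact (meas_sw.comp (measurable_fst.sub measurable_snd)).aestronglyMeasurable

lemma swap_V (p q : ℕ) (hp : 2 ≤ p) (hq : 2 ≤ q) (θ : Measure ℝ) [IsFiniteMeasure θ]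
    (μ : Measure UnitAddCircle) [IsProbabilityMeasure μ] :
    ∫ y, (∫ t, V p q (y - t) ∂θ) ∂(law μ) = ∫ t, vf p q μ t ∂θ := by
  unfold vf
  refine integral_integral_swap ?_
  refine Integrable.of_bound ?_ 2 (Eventually.of_forall fun z => by
    rw [Real.norm_eq_abs]; exact abs_V p q hp hq _)
  exact ((meas_V p q).comp (measurable_fst.sub measurable_snd)).aestronglyMeasurable

/-- the integral of `f` in terms of `θ` -/
lemma int_f (f : UnitAddCircle → ℝ) (θ₁ θ₂ : Measure ℝ) [IsFiniteMeasure θ₁] [IsFiniteMeasure θ₂]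
    (c : ℝ)
    (hE : {x : ℝ | 0 ≤ x ∧ x < 1 ∧ f (x : UnitAddCircle) ≠
      c - (∫ t, sw (x - t) ∂θ₁) + ∫ t, sw (x - t) ∂θ₂}.Countable)
    (μ : Measure UnitAddCircle) [IsProbabilityMeasure μ] [NullSingletonClass μ] :
    ∫ x, f x ∂μ = c - (∫ t, gf μ t ∂θ₁) + ∫ t, gf μ t ∂θ₂ := by
  have h1 := law_null μ _ hE
  have hms : MeasurableSet {x : ℝ | 0 ≤ x ∧ x < 1 ∧ f (x : UnitAddCircle) ≠
      c - (∫ t, sw (x - t) ∂θ₁) + ∫ t, sw (x - t) ∂θ₂} := hE.measurableSet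
  have h2 : ∀ᵐ x ∂μ, f x = Fr θ₁ θ₂ c (rep x) := by
    unfold law at h1
    rw [Measure.map_apply meas_rep hms] at h1
    rw [ae_iff]
    refine measure_mono_null ?_ h1
    intro x hx
    refine ⟨rep_nonneg x, rep_lt x, ?_⟩
    rw [coe_rep]
    exact hx
  rw [integral_congr_ae h2]
  have hFm : Measurable (Fr θ₁ θ₂ c) :=
    (measurable_const.sub (meas_int_sw θ₁)).add (meas_int_sw θ₂)
  have h3 : ∫ x, Fr θ₁ θ₂ c (rep x) ∂μ = ∫ y, Fr θ₁ θ₂ c y ∂(law μ) := by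
    unfold law
    rw [integral_map meas_rep.aemeasurable hFm.aestronglyMeasurable]
  rw [h3]
  unfold Fr
  have i1 : Integrable (fun y : ℝ => ∫ t, sw (y - t) ∂θ₁) (law μ) :=
    integrable_bdd _ _ (meas_int_sw θ₁) _ (abs_int_sw θ₁)
  have i2 : Integrable (fun y : ℝ => ∫ t, sw (y - t) ∂θ₂) (law μ) :=
    integrable_bdd _ _ (meas_int_sw θ₂) _ (abs_int_sw θ₂)
  have i0 : Integrable (fun y : ℝ => c - ∫ t, sw (y - t) ∂θ₁) (law μ) := (integrable_const c).sub i1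
  rw [integral_add i0 i2, integral_sub (integrable_const c) i1, swap_sw, swap_sw, integral_const]
  simp

lemma meas_gf (μ : Measure UnitAddCircle) [IsProbabilityMeasure μ] : Measurable (gf μ) := by
  have h : StronglyMeasurable (fun z : ℝ × ℝ => sw (z.2 - z.1)) :=
    (meas_sw.comp (measurable_snd.sub measurable_fst)).stronglyMeasurable
  exact (h.integral_prod_right').measurable

lemma abs_gf (μ : Measure UnitAddCircle) [IsProbabilityMeasure μ] (s : ℝ) : |gf μ s| ≤ 1 / 2 := by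
  unfold gf
  rw [← Real.norm_eq_abs]
  refine (norm_integral_le_of_norm_le_const (C := 1 / 2) (Eventually.of_forall fun t => by
    rw [Real.norm_eq_abs]; exact abs_sw _)).trans ?_
  simp

/-- data attached to a function of bounded variation -/
structure Dat (p q : ℕ) (f : UnitAddCircle → ℝ) where
  θ₁ : Measure ℝ
  θ₂ : Measure ℝ
  Θ₁ : Measure ℝ
  Θ₂ : Measure ℝ
  c : ℝ
  f1 : IsFiniteMeasure θ₁
  f2 : IsFiniteMeasure θ₂
  f3 : IsFiniteMeasure Θ₁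
  f4 : IsFiniteMeasure Θ₂
  hE : {x : ℝ | 0 ≤ x ∧ x < 1 ∧ f (x : UnitAddCircle) ≠
      c - (∫ t, sw (x - t) ∂θ₁) + ∫ t, sw (x - t) ∂θ₂}.Countable
  s1 : ∀ F : ℝ → ℂ, Measurable F → (∃ B : ℝ, ∀ t, ‖F t‖ ≤ B) →
      HasSum (fun ij : ℕ × ℕ => ((p : ℂ) ^ ij.1 * (q : ℂ) ^ ij.2)⁻¹ *
        ∫ t, F ((p : ℝ) ^ ij.1 * (q : ℝ) ^ ij.2 * t) ∂θ₁) (∫ t, F t ∂Θ₁)
  s2 : ∀ F : ℝ → ℂ, Measurable F → (∃ B : ℝ, ∀ t, ‖F t‖ ≤ B) →
      HasSum (fun ij : ℕ × ℕ => ((p : ℂ) ^ ij.1 * (q : ℂ) ^ ij.2)⁻¹ *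
        ∫ t, F ((p : ℝ) ^ ij.1 * (q : ℝ) ^ ij.2 * t) ∂θ₂) (∫ t, F t ∂Θ₂)
  g1 : ∀ G : ℝ → ℝ, Measurable G → (∃ B : ℝ, ∀ t, |G t| ≤ B) →
      ∫ t, (G t - G (p * t) / p - G (q * t) / q + G (p * q * t) / (p * q)) ∂Θ₁ = ∫ t, G t ∂θ₁
  g2 : ∀ G : ℝ → ℝ, Measurable G → (∃ B : ℝ, ∀ t, |G t| ≤ B) →
      ∫ t, (G t - G (p * t) / p - G (q * t) / q + G (p * q * t) / (p * q)) ∂Θ₂ = ∫ t, G t ∂θ₂

lemma exists_dat (hREP : S_REP) (hTIL : S_TIL) (p q : ℕ) (hp : 2 ≤ p) (hq : 2 ≤ q)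
    (f : UnitAddCircle → ℝ)
    (hf : BoundedVariationOn (fun t : ℝ => f (t : UnitAddCircle)) (Set.Icc 0 1)) :
    Nonempty (Dat p q f) := by
  have h01 : f ((0 : ℝ) : UnitAddCircle) = f ((1 : ℝ) : UnitAddCircle) := by
    congr 1
    have : ((1 : ℝ) : UnitAddCircle) = 0 := AddCircle.coe_period 1
    rw [this]
    rfl
  obtain ⟨θ₁, θ₂, c, h1, h2, hE⟩ := hREP (fun t : ℝ => f (t : UnitAddCircle)) hf h01
  obtain ⟨Θ₁, h3, s1, g1⟩ := hTIL p q hp hq θ₁ h1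
  obtain ⟨Θ₂, h4, s2, g2⟩ := hTIL p q hp hq θ₂ h2
  exact ⟨⟨θ₁, θ₂, Θ₁, Θ₂, c, h1, h2, h3, h4, hE, s1, s2, g1, g2⟩⟩

variable {p q : ℕ} {f : UnitAddCircle → ℝ}

lemma dat_int (D : Dat p q f) (μ : Measure UnitAddCircle) (hμ : Joint p q μ) :
    ∫ x, f x ∂μ = D.c - (∫ t, vf p q μ t ∂D.Θ₁) + ∫ t, vf p q μ t ∂D.Θ₂ := by
  have := hμ.1
  have := hμ.2.1
  have := D.f1
  have := D.f2
  rw [int_f f D.θ₁ D.θ₂ D.c D.hE μ]
  rw [← D.g1 (gf μ) (meas_gf μ) ⟨1 / 2, abs_gf μ⟩, ← D.g2 (gf μ) (meas_gf μ) ⟨1 / 2, abs_gf μ⟩]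
  have e : ∀ t, gf μ t - gf μ (p * t) / p - gf μ (q * t) / q + gf μ (p * q * t) / (p * q) =
      vf p q μ t := fun t => (vf_eq p q μ hμ.2.2.1 hμ.2.2.2 t).symm
  simp_rw [e]

lemma dat_c (hFOUR : S_FOUR) (D : Dat p q f) : ∫ x, f x = D.c := by
  have h := (hFOUR (fun t : ℝ => f (t : UnitAddCircle)) D.θ₁ D.θ₂ D.c D.f1 D.f2 D.hE).1
  rw [← h]
  have h2 := UnitAddCircle.intervalIntegral_preimage (0 : ℝ) f
  rw [zero_add] at h2
  exact h2.symm

lemma dat_HH (hFOUR : S_FOUR) (D : Dat p q f)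
    (H : ∀ μ : Measure UnitAddCircle, Joint p q μ → ∫ x, f x ∂μ = ∫ x, f x) :
    HH p q D.Θ₁ D.Θ₂ := by
  intro μ hμ
  have h1 := H μ hμ
  rw [dat_int D μ hμ, dat_c hFOUR D] at h1
  linarith

/-- the class coefficients -/
noncomputable def AA (p q : ℕ) (f : UnitAddCircle → ℝ) (n : ℤ) : ℂ :=
  ∑' ij : ℕ × ℕ, fourierCoeff (fun x => ((f x : ℝ) : ℂ)) (n * (p : ℤ) ^ ij.1 * (q : ℤ) ^ ij.2)

lemma fc_eq (f : UnitAddCircle → ℝ) (n : ℤ) : fourierCoeff (fun x => ((f x : ℝ) : ℂ)) n =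
    ∫ u in (0 : ℝ)..1, e1 (-(n * u)) * ((f (u : UnitAddCircle) : ℝ) : ℂ) := by
  rw [fourierCoeff_eq_intervalIntegral (fun x => ((f x : ℝ) : ℂ)) n 0]
  simp only [zero_add, div_one, one_smul, smul_eq_mul]
  congr 1
  funext u
  congr 1
  rw [fourier_coe_apply]
  unfold e1
  congr 1
  push_cast
  ring

lemma AA_eq (hFOUR : S_FOUR) (hp : 1 ≤ p) (hq : 1 ≤ q) (D : Dat p q f) (n : ℤ) (hn : n ≠ 0) :
    AA p q f n = (1 / (2 * Real.pi * Complex.I * n)) * (ft D.Θ₁ n - ft D.Θ₂ n) := by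
  have hb : ∀ t : ℝ, ‖e1 (-(n * t))‖ ≤ 1 := fun t => (norm_e1 _).le
  have hm : Measurable fun t : ℝ => e1 (-(n * t)) :=
    (cont_e1.comp (continuous_const.mul continuous_id).neg).measurable
  have a1 := D.s1 (fun t : ℝ => e1 (-(n * t))) hm ⟨1, hb⟩
  have a2 := D.s2 (fun t : ℝ => e1 (-(n * t))) hm ⟨1, hb⟩
  have a3 := (a1.sub a2).mul_left (1 / (2 * Real.pi * Complex.I * n) : ℂ)
  unfold AA ft
  rw [← a3.tsum_eq]
  congr 1
  funext ij
  have hpn : (p : ℤ) ≠ 0 := by exact_mod_cast (by omega : p ≠ 0)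
  have hqn : (q : ℤ) ≠ 0 := by exact_mod_cast (by omega : q ≠ 0)
  have hN : n * (p : ℤ) ^ ij.1 * (q : ℤ) ^ ij.2 ≠ 0 :=
    mul_ne_zero (mul_ne_zero hn (pow_ne_zero _ hpn)) (pow_ne_zero _ hqn)
  rw [fc_eq, (hFOUR (fun t : ℝ => f (t : UnitAddCircle)) D.θ₁ D.θ₂ D.c D.f1 D.f2 D.hE).2 _ hN]
  have e : ∀ t : ℝ, e1 (-(((n * (p : ℤ) ^ ij.1 * (q : ℤ) ^ ij.2 : ℤ) : ℝ) * t)) =
      e1 (-(n * ((p : ℝ) ^ ij.1 * (q : ℝ) ^ ij.2 * t))) := by
    intro t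
    congr 1
    push_cast
    ring
  simp_rw [e]
  have hpc : (p : ℂ) ≠ 0 := by exact_mod_cast (by omega : p ≠ 0)
  have hqc : (q : ℂ) ≠ 0 := by exact_mod_cast (by omega : q ≠ 0)
  have hnc : (n : ℂ) ≠ 0 := by exact_mod_cast hn
  have hpi : (Real.pi : ℂ) ≠ 0 := by exact_mod_cast Real.pi_ne_zero
  have hI := Complex.I_ne_zero
  push_cast
  field_simp

lemma ft_conj (Θ : Measure ℝ) (n : ℤ) : ft Θ (-n) = (starRingEnd ℂ) (ft Θ n) := by
  unfold ft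
  rw [← integral_conj]
  congr 1
  ext t
  have : ∀ s : ℝ, (starRingEnd ℂ) (e1 s) = e1 (-s) := by
    intro s
    unfold e1
    rw [← Complex.exp_conj]
    congr 1
    simp only [map_mul, Complex.conj_I, Complex.conj_ofReal, map_ofNat]
    push_cast
    ring
  rw [this]
  congr 1
  push_cast
  ring

/-- **decisive functions of bounded variation** -/
theorem bv_dec (hDAV : S_DAV) (hORB : S_ORB) (hCONV : S_CONV) (hFOUR : S_FOUR)
    (hp : p.Prime) (hq : q.Prime) (hpq : p ≠ q) (D : Dat p q f) (n : ℤ) (hpn : ¬ (p : ℤ) ∣ n)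
    (hqn : ¬ (q : ℤ) ∣ n) (hA : AA p q f n ≠ 0)
    (H : ∀ μ : Measure UnitAddCircle, Joint p q μ → ∫ x, f x ∂μ = ∫ x, f x) :
    ∀ μ : Measure UnitAddCircle, Joint p q μ → μ = (volume : Measure UnitAddCircle) := by
  have := D.f3
  have := D.f4
  have hn0 : n ≠ 0 := by
    rintro rfl
    exact hpn (dvd_zero _)
  have hne : ft D.Θ₁ n ≠ ft D.Θ₂ n := by
    intro h
    apply hA
    rw [AA_eq hFOUR hp.one_le hq.one_le D n hn0, h, sub_self, mul_zero]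
  have hne2 : ft D.Θ₁ (n.natAbs : ℤ) ≠ ft D.Θ₂ (n.natAbs : ℤ) := by
    rcases Int.natAbs_eq n with h | h
    · rwa [← h]
    · intro h2
      apply hne
      rw [h, ft_conj, ft_conj, h2]
  exact core hDAV hORB hCONV hp hq hpq (dat_HH hFOUR D H) n.natAbs (Int.natAbs_pos.2 hn0)
    (fun h => hpn (Int.natCast_dvd.2 h)) (fun h => hqn (Int.natCast_dvd.2 h)) hne2

lemma rc_sw (t : ℝ) : ContinuousWithinAt sw (Set.Ici t) t := by
  unfold sw
  refine ContinuousWithinAt.sub ?_ continuousWithinAt_const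
  have h := continuousOn_fract (α := ℝ) ⌊t⌋
  have h1 : ContinuousWithinAt Int.fract (Set.Ico (⌊t⌋ : ℝ) (⌊t⌋ + 1)) t :=
    h t ⟨Int.floor_le t, Int.lt_floor_add_one t⟩
  refine h1.mono_of_mem_nhdsWithin ?_
  refine mem_nhdsWithin.2 ⟨Set.Iio ((⌊t⌋ : ℝ) + 1), isOpen_Iio, Int.lt_floor_add_one t, ?_⟩
  rintro y ⟨hy1, hy2⟩
  exact ⟨(Int.floor_le t).trans hy2, hy1⟩

lemma rc_sw_mul (a : ℝ) (ha : 0 ≤ a) (t : ℝ) :
    ContinuousWithinAt (fun u : ℝ => sw (a * u)) (Set.Ici t) t := by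
  have h1 : Set.MapsTo (fun u : ℝ => a * u) (Set.Ici t) (Set.Ici (a * t)) := fun u hu =>
    mul_le_mul_of_nonneg_left hu ha
  exact (rc_sw (a * t)).comp (continuous_const.mul continuous_id).continuousWithinAt h1

lemma rc_V (p q : ℕ) (t : ℝ) : ContinuousWithinAt (V p q) (Set.Ici t) t := by
  unfold V
  exact (((rc_sw t).sub ((rc_sw_mul p (Nat.cast_nonneg p) t).div_const _)).sub
    ((rc_sw_mul q (Nat.cast_nonneg q) t).div_const _)).add
    ((rc_sw_mul (p * q) (by positivity) t).div_const _)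

lemma vv_V (p q : ℕ) (u : ℝ) : vv p q u 0 = V p q u := by
  unfold vv V
  simp only [sw_eq]
  push_cast
  simp

/-- the trivial case: the two convolutions agree everywhere -/
lemma triv_all (hFOUR : S_FOUR) (hTRIV : S_TRIV) (hp : p.Prime) (hq : q.Prime) (hpq : p ≠ q)
    (D : Dat p q f)
    (hA : ∀ n : ℤ, ¬ (p : ℤ) ∣ n → ¬ (q : ℤ) ∣ n → AA p q f n = 0) (y : ℝ) :
    ∫ t, V p q (y - t) ∂D.Θ₁ = ∫ t, V p q (y - t) ∂D.Θ₂ := by
  refine hTRIV (V p q) (meas_V p q) ⟨2, abs_V p q hp.two_le hq.two_le⟩ (fun t => ?_) (rc_V p q)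
    D.Θ₁ D.Θ₂ D.f3 D.f4 (fun n => ?_) y
  · have := V_add_int p q t 1
    simpa using this
  · by_cases hn : ¬ (p : ℤ) ∣ n ∧ ¬ (q : ℤ) ∣ n
    · right
      have h1 := hA n hn.1 hn.2
      have hn0 : n ≠ 0 := by
        rintro rfl
        exact hn.1 (dvd_zero _)
      rw [AA_eq hFOUR hp.one_le hq.one_le D n hn0] at h1
      have hc : (1 / (2 * Real.pi * Complex.I * n) : ℂ) ≠ 0 := by
        have hnc : (n : ℂ) ≠ 0 := by exact_mod_cast hn0
        have hpi : (Real.pi : ℂ) ≠ 0 := by exact_mod_cast Real.pi_ne_zero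
        exact one_div_ne_zero (by simp [hnc, hpi])
      exact sub_eq_zero.1 ((mul_eq_zero.1 h1).resolve_left hc)
    · left
      have h1 := coef_vv p q hp hq hpq n 0
      rw [if_neg hn] at h1
      simp_rw [vv_V] at h1
      exact h1

/-- **trivial functions of bounded variation** -/
theorem bv_triv (hFOUR : S_FOUR) (hTRIV : S_TRIV) (hp : p.Prime) (hq : q.Prime) (hpq : p ≠ q)
    (D : Dat p q f)
    (hA : ∀ n : ℤ, ¬ (p : ℤ) ∣ n → ¬ (q : ℤ) ∣ n → AA p q f n = 0)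
    (μ : Measure UnitAddCircle) (hμ : Joint p q μ) : ∫ x, f x ∂μ = ∫ x, f x := by
  have := hμ.1
  have := D.f3
  have := D.f4
  rw [dat_int D μ hμ, dat_c hFOUR D, ← swap_V p q hp.two_le hq.two_le,
    ← swap_V p q hp.two_le hq.two_le]
  simp_rw [triv_all hFOUR hTRIV hp hq hpq D hA]
  ring

/-- the value at `0+` of a trivial function -/
theorem bv_lim (hFOUR : S_FOUR) (hTRIV : S_TRIV) (hp : p.Prime) (hq : q.Prime) (hpq : p ≠ q)
    (D : Dat p q f)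
    (hA : ∀ n : ℤ, ¬ (p : ℤ) ∣ n → ¬ (q : ℤ) ∣ n → AA p q f n = 0)
    (L : ℝ) (hL : Tendsto (fun t : ℝ => f (t : UnitAddCircle)) (𝓝[>] 0) (𝓝 L)) :
    L = ∫ x, f x := by
  have := D.f1
  have := D.f2
  -- value of the representing function at zero
  have h0 := triv_all hFOUR hTRIV hp hq hpq D hA 0
  have hG : ∀ t : ℝ, V p q (0 - t) = (fun t => sw (-t)) t - (fun t => sw (-t)) (p * t) / p -
      (fun t => sw (-t)) (q * t) / q + (fun t => sw (-t)) (p * q * t) / (p * q) := by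
    intro t
    unfold V
    simp only [zero_sub, mul_neg]
  simp_rw [hG] at h0
  have hGm : Measurable fun t : ℝ => sw (-t) := meas_sw.comp measurable_neg
  rw [D.g1 (fun t => sw (-t)) hGm ⟨1 / 2, fun t => abs_sw _⟩,
    D.g2 (fun t => sw (-t)) hGm ⟨1 / 2, fun t => abs_sw _⟩] at h0
  -- right continuity
  have hrc : ∀ (θ : Measure ℝ) [IsFiniteMeasure θ],
      Tendsto (fun y : ℝ => ∫ t, sw (y - t) ∂θ) (𝓝[>] 0) (𝓝 (∫ t, sw (-t) ∂θ)) := by
    intro θ _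
    refine tendsto_integral_filter_of_dominated_convergence (fun _ => 1 / 2)
      (Eventually.of_forall fun y => (meas_sw.comp (measurable_const.sub measurable_id)).aestronglyMeasurable)
      (Eventually.of_forall fun y => Eventually.of_forall fun t => by
        rw [Real.norm_eq_abs]; exact abs_sw _) (integrable_const _)
      (Eventually.of_forall fun t => ?_)
    have h1 := rc_sw (-t)
    have h2 : Tendsto (fun y : ℝ => y - t) (𝓝[>] 0) (𝓝[≥] (-t)) := by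
      refine tendsto_nhdsWithin_iff.2 ⟨?_, ?_⟩
      · have h3 : Tendsto (fun y : ℝ => y - t) (𝓝 0) (𝓝 (0 - t)) :=
          (continuous_id.sub continuous_const).tendsto 0
        rw [zero_sub] at h3
        exact h3.mono_left nhdsWithin_le_nhds
      · filter_upwards [self_mem_nhdsWithin] with y hy
        have hy2 : (0 : ℝ) < y := hy
        show -t ≤ y - t
        linarith
    exact h1.tendsto.comp h2
  have hF : Tendsto (fun y : ℝ => D.c - (∫ t, sw (y - t) ∂D.θ₁) + ∫ t, sw (y - t) ∂D.θ₂) (𝓝[>] 0)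
      (𝓝 (D.c - (∫ t, sw (-t) ∂D.θ₁) + ∫ t, sw (-t) ∂D.θ₂)) :=
    (tendsto_const_nhds.sub (hrc D.θ₁)).add (hrc D.θ₂)
  rw [h0, sub_add_cancel] at hF
  rw [dat_c hFOUR D]
  -- the two functions agree frequently near zero
  have hfreq : ∃ᶠ y : ℝ in 𝓝[>] (0 : ℝ), f ((y : ℝ) : UnitAddCircle) =
      D.c - (∫ t, sw (y - t) ∂D.θ₁) + ∫ t, sw (y - t) ∂D.θ₂ := by
    intro hev
    rw [eventually_nhdsWithin_iff, Metric.eventually_nhds_iff] at hev
    obtain ⟨ε, hε, hb⟩ := hev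
    have hsub : Set.Ioo (0 : ℝ) (min ε 1) ⊆ {x : ℝ | 0 ≤ x ∧ x < 1 ∧ f (x : UnitAddCircle) ≠
      D.c - (∫ t, sw (x - t) ∂D.θ₁) + ∫ t, sw (x - t) ∂D.θ₂} := by
      intro x hx
      have h1 := lt_min_iff.1 hx.2
      refine ⟨hx.1.le, h1.2, hb ?_ hx.1⟩
      rw [Real.dist_eq, sub_zero, abs_of_pos hx.1]
      exact h1.1
    have hc := D.hE.mono hsub
    have hnc : ¬ (Set.Ioo (0 : ℝ) (min ε 1)).Countable := by
      rw [← Cardinal.le_aleph0_iff_set_countable, not_le]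
      rw [Cardinal.mk_Ioo_real (lt_min hε one_pos)]
      exact Cardinal.aleph0_lt_continuum
    exact hnc hc
  by_contra hne
  have h1 : ∀ᶠ y : ℝ in 𝓝[>] (0 : ℝ), f ((y : ℝ) : UnitAddCircle) ≠
      D.c - (∫ t, sw (y - t) ∂D.θ₁) + ∫ t, sw (y - t) ∂D.θ₂ := by
    filter_upwards [(hL.sub hF).eventually_ne (sub_ne_zero.2 hne)] with y hy
    exact sub_ne_zero.1 hy
  exact hfreq h1

end Pool.Agent.U798.BV
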