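import Pool.Agent.U798.BV.Core3

set_option autoImplicit false

open MeasureTheory Filter Topology
open Pool.Agent.H807R2.Dav
open Pool.Agent.U798.MN Pool.Agent.U798.FA Pool.Agent.U798.OP

namespace Pool.Agent.U798.BV

variable {p q : ℕ} {f : UnitAddCircle → ℝ}

/-- Fourier coefficients of `f` -/
noncomputable def fc (f : UnitAddCircle → ℝ) (n : ℤ) : ℂ := fourierCoeff (fun x => ((f x : ℝ) : ℂ)) n

/-- Fourier coefficients of `μ` -/
noncomputable def hh (μ : Measure UnitAddCircle) (n : ℤ) : ℂ := ∫ x, (fourier n x : ℂ) ∂μ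

lemma norm_hh (μ : Measure UnitAddCircle) [IsProbabilityMeasure μ] (n : ℤ) : ‖hh μ n‖ ≤ 1 := by
  unfold hh
  refine (norm_integral_le_of_norm_le_const (C := 1) (Eventually.of_forall fun x => ?_)).trans ?_
  · rw [fourier_apply, Circle.norm_coe]
  · simp

lemma fc_conj (f : UnitAddCircle → ℝ) (n : ℤ) : fc f (-n) = (starRingEnd ℂ) (fc f n) := by
  unfold fc fourierCoeff
  rw [← integral_conj]
  congr 1
  ext x
  simp only [smul_eq_mul, map_mul, Complex.conj_ofReal, neg_neg]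
  rw [← fourier_neg, neg_neg]

lemma summ (hs : Summable (fc f)) (μ : Measure UnitAddCircle) [IsProbabilityMeasure μ] :
    Summable fun n => fc f n * hh μ n := by
  refine Summable.of_norm_bounded hs.norm fun n => ?_
  rw [norm_mul]
  exact mul_le_of_le_one_right (norm_nonneg _) (norm_hh μ n)

lemma w_pt (hc : Continuous f) (hs : Summable (fc f)) (x : UnitAddCircle) :
    HasSum (fun n : ℤ => fc f n * (fourier n x : ℂ)) ((f x : ℝ) : ℂ) := by
  let g : C(UnitAddCircle, ℂ) := ⟨fun x => ((f x : ℝ) : ℂ), Complex.continuous_ofReal.comp hc⟩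
  have hs' : Summable (fourierCoeff (g : UnitAddCircle → ℂ)) := hs
  exact has_pointwise_sum_fourier_series_of_summable hs' x

/-- the integral of `f` -/
lemma w_int (hc : Continuous f) (hs : Summable (fc f)) (μ : Measure UnitAddCircle)
    [IsProbabilityMeasure μ] :
    ((∫ x, f x ∂μ : ℝ) : ℂ) = ∑' n : ℤ, fc f n * hh μ n := by
  rw [← integral_complex_ofReal]
  have e2 : ∀ x, ((f x : ℝ) : ℂ) = ∑' n : ℤ, fc f n * (fourier n x : ℂ) :=
    fun x => (w_pt hc hs x).tsum_eq.symm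
  simp_rw [e2]
  rw [integral_tsum]
  · congr 1
    funext n
    rw [integral_const_mul]
    rfl
  · intro n
    exact (continuous_const.mul (map_continuous (fourier n))).aestronglyMeasurable
  · have h3 : ∀ n : ℤ, ∫⁻ x, ‖fc f n * (fourier n x : ℂ)‖ₑ ∂μ = ‖fc f n‖ₑ := by
      intro n
      have : ∀ x : UnitAddCircle, ‖fc f n * (fourier n x : ℂ)‖ₑ = ‖fc f n‖ₑ := by
        intro x
        rw [enorm_mul]
        have : ‖(fourier n x : ℂ)‖ₑ = 1 := by
          rw [← ofReal_norm, fourier_apply, Circle.norm_coe, ENNReal.ofReal_one]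
        rw [this, mul_one]
      simp_rw [this]
      simp
    simp_rw [h3]
    have := hs.norm
    rw [← lt_top_iff_ne_top]
    have h4 : ∑' n : ℤ, ‖fc f n‖ₑ = ENNReal.ofReal (∑' n : ℤ, ‖fc f n‖) := by
      rw [ENNReal.ofReal_tsum_of_nonneg (fun _ => norm_nonneg _) this]
      simp_rw [ofReal_norm]
    rw [h4]
    exact ENNReal.ofReal_lt_top

lemma w_vol : ((∫ x, f x : ℝ) : ℂ) = fc f 0 := by
  rw [← integral_complex_ofReal]
  have h := fc_eq f 0
  unfold fc
  rw [h]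
  have h2 := UnitAddCircle.intervalIntegral_preimage (0 : ℝ) (fun x => ((f x : ℝ) : ℂ))
  rw [zero_add] at h2
  rw [← h2]
  congr 1
  funext u
  simp [e1]

lemma hh_zero (μ : Measure UnitAddCircle) [IsProbabilityMeasure μ] : hh μ 0 = 1 := by
  unfold hh
  simp

lemma hh_conj (μ : Measure UnitAddCircle) (n : ℤ) : hh μ (-n) = (starRingEnd ℂ) (hh μ n) :=
  fourier_conj μ n

lemma split0 (c : ℤ → ℂ) (hs : Summable c) :
    ∑' n : ℤ, c n = c 0 + ∑' n : ℤ, (if n ≠ 0 then c n else 0) := by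
  rw [hs.tsum_eq_add_tsum_ite 0]
  congr 1
  congr 1
  funext n
  by_cases h : n = 0 <;> simp [h]

/-- invariance of the Fourier coefficients -/
lemma hh_mul (μ : Measure UnitAddCircle) (p : ℕ)
    (h : MeasurePreserving (fun x : UnitAddCircle => p • x) μ μ) (n : ℤ) :
    hh μ (n * p) = hh μ n := by
  have h1 := dil_fourier (p : ℤ) μ n
  have h2 : dil (p : ℤ) μ = μ := by
    have e : (fun x : UnitAddCircle => (p : ℤ) • x) = fun x => p • x := by
      funext x
      simp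
    unfold dil
    rw [e]
    exact h.map_eq
  rw [h2] at h1
  unfold hh
  rw [mul_comm n, h1]

lemma hh_pow (μ : Measure UnitAddCircle) (p : ℕ)
    (h : MeasurePreserving (fun x : UnitAddCircle => p • x) μ μ) (n : ℤ) (i : ℕ) :
    hh μ (n * (p : ℤ) ^ i) = hh μ n := by
  induction i with
  | zero => simp
  | succ i ih => rw [pow_succ, ← mul_assoc, hh_mul μ p h, ih]

lemma hh_cls {μ : Measure UnitAddCircle} (hμ : Joint p q μ) (n : ℤ) (i j : ℕ) :
    hh μ (n * (p : ℤ) ^ i * (q : ℤ) ^ j) = hh μ n := by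
  rw [hh_pow μ q hμ.2.2.2, hh_pow μ p hμ.2.2.1]

/-- injectivity of the enumeration of a class -/
lemma cls_inj (hp : p.Prime) (hq : q.Prime) (hpq : p ≠ q) (n : ℤ) (hn : n ≠ 0) :
    Function.Injective fun ij : ℕ × ℕ => n * (p : ℤ) ^ ij.1 * (q : ℤ) ^ ij.2 := by
  rintro ⟨i, j⟩ ⟨i', j'⟩ h
  simp only at h
  have h1 : (p : ℤ) ^ i * (q : ℤ) ^ j = (p : ℤ) ^ i' * (q : ℤ) ^ j' := by
    rw [mul_assoc, mul_assoc] at h
    exact mul_left_cancel₀ hn h
  have h2 : p ^ i * q ^ j = p ^ i' * q ^ j' := by exact_mod_cast h1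
  have hc := (Nat.coprime_primes hp hq).2 hpq
  have k1 : ∀ a b : ℕ, (p ^ a * q ^ b).factorization p = a := by
    intro a b
    rw [Nat.factorization_mul (pow_ne_zero _ hp.ne_zero) (pow_ne_zero _ hq.ne_zero),
      hp.factorization_pow, hq.factorization_pow]
    simp [Finsupp.single_apply, hpq.symm]
  have k2 : ∀ a b : ℕ, (p ^ a * q ^ b).factorization q = b := by
    intro a b
    rw [Nat.factorization_mul (pow_ne_zero _ hp.ne_zero) (pow_ne_zero _ hq.ne_zero),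
      hp.factorization_pow, hq.factorization_pow]
    simp [Finsupp.single_apply, hpq]
  have a1 := k1 i j
  have a2 := k2 i j
  rw [h2, k1] at a1
  rw [h2, k2] at a2
  rw [a1, a2]

/-- the sum over a class -/
lemma cls_sum (hp : p.Prime) (hq : q.Prime) (hpq : p ≠ q) (hs : Summable (fc f))
    {μ : Measure UnitAddCircle} (hμ : Joint p q μ) (m : ℕ) (hm : 1 ≤ m) :
    ∑' ij : ℕ × ℕ, (fc f (m * p ^ ij.1 * q ^ ij.2) * hh μ (m * p ^ ij.1 * q ^ ij.2) +
      fc f (-(m * p ^ ij.1 * q ^ ij.2)) * hh μ (-(m * p ^ ij.1 * q ^ ij.2))) =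
    AA p q f m * hh μ m + AA p q f (-m) * hh μ (-m) := by
  have hm0 : (m : ℤ) ≠ 0 := by exact_mod_cast (by omega : m ≠ 0)
  have e : ∀ ij : ℕ × ℕ, -((m : ℤ) * (p : ℤ) ^ ij.1 * (q : ℤ) ^ ij.2) =
      (-m : ℤ) * (p : ℤ) ^ ij.1 * (q : ℤ) ^ ij.2 := fun ij => by ring
  simp_rw [e, hh_cls hμ]
  have s1 : Summable fun ij : ℕ × ℕ => fc f ((m : ℤ) * (p : ℤ) ^ ij.1 * (q : ℤ) ^ ij.2) :=
    hs.comp_injective (cls_inj hp hq hpq m hm0)
  have s2 : Summable fun ij : ℕ × ℕ => fc f ((-m : ℤ) * (p : ℤ) ^ ij.1 * (q : ℤ) ^ ij.2) :=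
    hs.comp_injective (cls_inj hp hq hpq (-m) (neg_ne_zero.2 hm0))
  rw [(s1.mul_right _).tsum_add (s2.mul_right _), tsum_mul_right, tsum_mul_right]
  rfl

/-- the relation between the first coefficient and the class coefficients -/
lemma w_rel (hSIEV : S_SIEV) (hp : p.Prime) (hq : q.Prime) (hpq : p ≠ q) (hc : Continuous f)
    (hs : Summable (fc f))
    (H : ∀ μ : Measure UnitAddCircle, Joint p q μ → ∫ x, f x ∂μ = ∫ x, f x)
    (m : ℕ) (hm : 1 ≤ m) (hpm : ¬ p ∣ m) (hqm : ¬ q ∣ m) (μ : Measure UnitAddCircle)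
    (hμ : Joint p q μ) : AA p q f m * hh μ 1 + AA p q f (-m) * hh μ (-1) = 0 := by
  -- the relation for the multiples of `d`
  have hd : ∀ ν : Measure UnitAddCircle, Joint p q ν → ∀ d : ℕ, 1 ≤ d → ¬ p ∣ d → ¬ q ∣ d →
      ∑' n : ℤ, (if n ≠ 0 ∧ (d : ℤ) ∣ n then fc f n * hh ν n else 0) = 0 := by
    intro ν hν d hd hpd hqd
    have hν1 := hν.1
    have hd0 : (d : ℤ) ≠ 0 := by exact_mod_cast (by omega : d ≠ 0)
    have j1 := joint_dil (d : ℤ) hd0 hν
    have j1' := j1.1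
    have j2 := joint_dv d hd ((Nat.Prime.coprime_iff_not_dvd hp).2 hpd)
      ((Nat.Prime.coprime_iff_not_dvd hq).2 hqd) j1
    have j2' := j2.1
    have h1 := H _ j2
    have h2 := w_int hc hs (dv d (dil d ν))
    rw [h1, w_vol, split0 _ (summ hs _), hh_zero, mul_one] at h2
    have h3 : ∑' n : ℤ, (if n ≠ 0 then fc f n * hh (dv d (dil d ν)) n else 0) = 0 := by
      linear_combination -h2
    refine Eq.trans ?_ h3
    congr 1
    funext n
    have h4 : hh (dv d (dil d ν)) n = if (d : ℤ) ∣ n then hh ν n else 0 := by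
      unfold hh
      rw [dv_fourier d hd]
      split_ifs with h5
      · rw [dil_fourier, Int.mul_ediv_cancel' h5]
      · rfl
    rw [h4]
    by_cases h5 : n = 0
    · simp [h5]
    · by_cases h6 : (d : ℤ) ∣ n
      · simp [h5, h6]
      · simp [h5, h6]
  have key : ∀ ν : Measure UnitAddCircle, Joint p q ν →
      AA p q f m * hh ν m + AA p q f (-m) * hh ν (-m) = 0 := by
    intro ν hν
    have hν1 := hν.1
    have h := hSIEV p q hp hq hpq (fun n => fc f n * hh ν n) (summ hs ν) (hd ν hν) m hm hpm hqm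
    exact (cls_sum hp hq hpq hs hν m hm).symm.trans h
  have hμ1 := hμ.1
  have j3 := joint_dv m hm ((Nat.Prime.coprime_iff_not_dvd hp).2 hpm)
      ((Nat.Prime.coprime_iff_not_dvd hq).2 hqm) hμ
  have h := key _ j3
  have hm0 : (m : ℤ) ≠ 0 := by exact_mod_cast (by omega : m ≠ 0)
  have e1 : hh (dv m μ) m = hh μ 1 := by
    unfold hh
    rw [dv_fourier m hm, if_pos dvd_rfl, Int.ediv_self hm0]
  have e2 : hh (dv m μ) (-m) = hh μ (-1) := by
    unfold hh
    rw [dv_fourier m hm, if_pos (by exact (dvd_neg.2 dvd_rfl)), Int.neg_ediv_of_dvd dvd_rfl,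
      Int.ediv_self hm0]
  rw [e1, e2] at h
  exact h

lemma AA_conj (n : ℤ) : AA p q f (-n) = (starRingEnd ℂ) (AA p q f n) := by
  unfold AA
  rw [Complex.conj_tsum]
  congr 1
  funext ij
  have : -n * (p : ℤ) ^ ij.1 * (q : ℤ) ^ ij.2 = -(n * (p : ℤ) ^ ij.1 * (q : ℤ) ^ ij.2) := by ring
  rw [this]
  exact fc_conj f _

/-- **decisive functions with an absolutely convergent Fourier series** -/
theorem w_dec (hORB : S_ORB) (hCONV : S_CONV) (hSIEV : S_SIEV)
    (hp : p.Prime) (hq : q.Prime) (hpq : p ≠ q) (hc : Continuous f)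
    (hs : Summable (fc f)) (n : ℤ) (hpn : ¬ (p : ℤ) ∣ n)
    (hqn : ¬ (q : ℤ) ∣ n) (hA : AA p q f n ≠ 0)
    (H : ∀ μ : Measure UnitAddCircle, Joint p q μ → ∫ x, f x ∂μ = ∫ x, f x) :
    ∀ μ : Measure UnitAddCircle, Joint p q μ → μ = (volume : Measure UnitAddCircle) := by
  have hn0 : n ≠ 0 := by
    rintro rfl
    exact hpn (dvd_zero _)
  set m := n.natAbs with hm
  have hm1 : 1 ≤ m := Int.natAbs_pos.2 hn0
  have hAm : AA p q f m ≠ 0 := by
    rcases Int.natAbs_eq n with h | h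
    · rwa [← h]
    · intro h2
      apply hA
      rw [h, AA_conj, h2, map_zero]
  have hpm : ¬ p ∣ m := fun h => hpn (Int.natCast_dvd.2 h)
  have hqm : ¬ q ∣ m := fun h => hqn (Int.natCast_dvd.2 h)
  refine of_first p q fun μ hμ => ?_
  obtain ⟨z, hz, hT⟩ := twist hORB hCONV hp hq
  obtain ⟨μ', hμ', he⟩ := hT μ hμ
  have hneg : ∀ ν : Measure UnitAddCircle, Joint p q ν →
      ∫ x, (fourier 1 x : ℂ) ∂(dil (-1) ν) = (starRingEnd ℂ) (∫ x, (fourier 1 x : ℂ) ∂ν) := by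
    intro ν hν
    rw [dil_fourier, ← fourier_conj]
    norm_num
  have rel2 : ∀ ν : Measure UnitAddCircle, Joint p q ν →
      ((Complex.I * AA p q f m) * ∫ x, (fourier 1 x : ℂ) ∂ν).im = 0 := by
    intro ν hν
    have h1 := w_rel hSIEV hp hq hpq hc hs H m hm1 hpm hqm ν hν
    rw [AA_conj, hh_conj, ← map_mul] at h1
    have h2 : (Complex.I * AA p q f m * hh ν 1).im = (AA p q f m * hh ν 1).re := by
      rw [mul_assoc, Complex.I_mul_im]
    show (Complex.I * AA p q f m * hh ν 1).im = 0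
    rw [h2]
    have h3 := congrArg Complex.re h1
    rw [Complex.add_re, Complex.conj_re, Complex.zero_re] at h3
    linarith
  have r1 := rel2 μ hμ
  have r2 := rel2 _ (joint_dil (-1) (by norm_num) hμ)
  have r3 := rel2 μ' hμ'
  have r4 := rel2 _ (joint_dil (-1) (by norm_num) hμ')
  rw [hneg μ hμ] at r2
  rw [hneg μ' hμ', he] at r4
  rw [he] at r3
  exact algebra (mul_ne_zero Complex.I_ne_zero hAm) hz r1 r2 r3 r4

/-- **trivial functions with an absolutely convergent Fourier series** -/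
theorem w_triv (hRGRP : S_RGRP) (hp : p.Prime) (hq : q.Prime) (hpq : p ≠ q) (hc : Continuous f)
    (hs : Summable (fc f))
    (hA : ∀ n : ℤ, ¬ (p : ℤ) ∣ n → ¬ (q : ℤ) ∣ n → AA p q f n = 0)
    (μ : Measure UnitAddCircle) (hμ : Joint p q μ) : ∫ x, f x ∂μ = ∫ x, f x := by
  have hμ1 := hμ.1
  have h2 := w_int hc hs μ
  have h3 := hRGRP p q hp hq hpq (fun n => fc f n * hh μ n) (summ hs μ) (fun m hm hpm hqm => by
    refine (cls_sum hp hq hpq hs hμ m hm).trans ?_
    rw [hA m (fun h => hpm (Int.natCast_dvd_natCast.1 h))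
      (fun h => hqm (Int.natCast_dvd_natCast.1 h)), hA (-m)
      (fun h => hpm (Int.natCast_dvd_natCast.1 ((dvd_neg).1 h)))
      (fun h => hqm (Int.natCast_dvd_natCast.1 ((dvd_neg).1 h)))]
    ring)
  rw [split0 _ (summ hs _), h3, hh_zero, mul_one, add_zero, ← w_vol] at h2
  exact_mod_cast h2

/-- the value at `0` of a trivial function -/
theorem w_zero (hRGRP : S_RGRP) (hp : p.Prime) (hq : q.Prime) (hpq : p ≠ q) (hc : Continuous f)
    (hs : Summable (fc f))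
    (hA : ∀ n : ℤ, ¬ (p : ℤ) ∣ n → ¬ (q : ℤ) ∣ n → AA p q f n = 0) :
    f 0 = ∫ x, f x := by
  have h1 : ((f 0 : ℝ) : ℂ) = ∑' n : ℤ, fc f n := by
    have h2 := (w_pt hc hs 0).tsum_eq
    have h3 : ∀ n : ℤ, fc f n * (fourier n (0 : UnitAddCircle) : ℂ) = fc f n := by
      intro n
      rw [fourier_eval_zero, mul_one]
    simp_rw [h3] at h2
    exact h2.symm
  have h3 := hRGRP p q hp hq hpq (fc f) hs (fun m hm hpm hqm => by
    have hm0 : (m : ℤ) ≠ 0 := by exact_mod_cast (by omega : m ≠ 0)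
    have e : ∀ ij : ℕ × ℕ, -((m : ℤ) * (p : ℤ) ^ ij.1 * (q : ℤ) ^ ij.2) =
        (-m : ℤ) * (p : ℤ) ^ ij.1 * (q : ℤ) ^ ij.2 := fun ij => by ring
    simp_rw [e]
    have s1 : Summable fun ij : ℕ × ℕ => fc f ((m : ℤ) * (p : ℤ) ^ ij.1 * (q : ℤ) ^ ij.2) :=
      hs.comp_injective (cls_inj hp hq hpq m hm0)
    have s2 : Summable fun ij : ℕ × ℕ => fc f ((-m : ℤ) * (p : ℤ) ^ ij.1 * (q : ℤ) ^ ij.2) :=
      hs.comp_injective (cls_inj hp hq hpq (-m) (neg_ne_zero.2 hm0))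
    rw [s1.tsum_add s2]
    have a1 : ∑' ij : ℕ × ℕ, fc f ((m : ℤ) * (p : ℤ) ^ ij.1 * (q : ℤ) ^ ij.2) = 0 :=
      hA m (fun h => hpm (Int.natCast_dvd_natCast.1 h)) (fun h => hqm (Int.natCast_dvd_natCast.1 h))
    have a2 : ∑' ij : ℕ × ℕ, fc f ((-m : ℤ) * (p : ℤ) ^ ij.1 * (q : ℤ) ^ ij.2) = 0 :=
      hA (-m) (fun h => hpm (Int.natCast_dvd_natCast.1 ((dvd_neg).1 h)))
        (fun h => hqm (Int.natCast_dvd_natCast.1 ((dvd_neg).1 h)))
    rw [a1, a2, add_zero])
  rw [split0 _ hs, h3, add_zero, ← w_vol] at h1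
  exact_mod_cast h1

end Pool.Agent.U798.BV
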